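import Mathlib

/-!
# Beating random colourings for monochromatic `k`-term progressions

Colour the integers of `[n]` independently; colour `0` has probability `(1 + η g(x)) / r`, colour `1`
has probability `(1 - η g(x)) / r` and the other colours have probability `1 / r`, where `g` is `1`,
`-2`, `1` on three intervals `I0, I1, I2` of length `ℓ ≥ n / (16 k)` near the left end and `0`
elsewhere. The intervals are placed so that every pair in `I0 × I1` or `I1 × I2` occurs in the same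
progressions as in the full group of integers, while a pair in `I0 × I2` misses a progression that
would start to the left of `1`. This makes the second order term of the expected number of
monochromatic progressions at most `-ℓ ^ 2`. Moving from such a colouring to a constant one, one
point at a time, one passes close to every intermediate value.
-/

set_option autoImplicit false

namespace Pool.Agent.Results.MP_6bff71_co.BeatRandom

open Finset

/-- `S` is a `k`-term arithmetic progression in `[n] = {1, ..., n}`. -/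
def IsAP (k n : ℕ) (S : Finset ℕ) : Prop :=
  ∃ a d : ℕ, 1 ≤ a ∧ 1 ≤ d ∧ a + (k - 1) * d ≤ n ∧ S = (range k).image fun i => a + i * d

/-- The number of monochromatic `k`-term arithmetic progressions in `[n]` under the colouring `χ`
(only the colours of `1, ..., n` matter). -/
noncomputable def monoCount {r : ℕ} (k n : ℕ) (χ : ℕ → Fin r) : ℕ :=
  {S : Finset ℕ | IsAP k n S ∧ ∃ c : Fin r, ∀ x ∈ S, χ x = c}.ncard

/-! ### Progressions as pairs -/

/-- First term and difference of the progressions in `[n]`. -/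
def pairs (k n : ℕ) : Finset (ℕ × ℕ) :=
  (Icc 1 n ×ˢ Icc 1 n).filter fun p => p.1 + (k - 1) * p.2 ≤ n

theorem mem_pairs {k n : ℕ} (hk : 2 ≤ k) {p : ℕ × ℕ} :
    p ∈ pairs k n ↔ 1 ≤ p.1 ∧ 1 ≤ p.2 ∧ p.1 + (k - 1) * p.2 ≤ n := by
  unfold pairs
  rw [mem_filter, mem_product, mem_Icc, mem_Icc]
  constructor
  · rintro ⟨⟨⟨h1, -⟩, h2, -⟩, h3⟩
    exact ⟨h1, h2, h3⟩
  · rintro ⟨h1, h2, h3⟩
    have h4 : p.2 ≤ (k - 1) * p.2 := Nat.le_mul_of_pos_left _ (by omega)
    refine ⟨⟨⟨h1, by omega⟩, h2, by omega⟩, h3⟩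

/-- The number of monochromatic pairs. -/
def mc {r : ℕ} (k n : ℕ) (χ : ℕ → Fin r) : ℕ :=
  ((pairs k n).filter fun p => ∀ j < k, χ (p.1 + j * p.2) = χ p.1).card

theorem ap_inj {k : ℕ} (hk : 2 ≤ k) {a d a' d' : ℕ} (hd : 1 ≤ d) (hd' : 1 ≤ d')
    (h : (range k).image (fun i => a + i * d) = (range k).image (fun i => a' + i * d')) :
    a = a' ∧ d = d' := by
  have h1 : ∀ i < k, ∃ j < k, a' + j * d' = a + i * d := by
    intro i hi
    have : a + i * d ∈ (range k).image (fun i => a + i * d) :=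
      mem_image.2 ⟨i, mem_range.2 hi, rfl⟩
    rw [h, mem_image] at this
    obtain ⟨j, hj, hj'⟩ := this
    exact ⟨j, mem_range.1 hj, hj'⟩
  have h2 : ∀ i < k, ∃ j < k, a + j * d = a' + i * d' := by
    intro i hi
    have : a' + i * d' ∈ (range k).image (fun i => a' + i * d') :=
      mem_image.2 ⟨i, mem_range.2 hi, rfl⟩
    rw [← h, mem_image] at this
    obtain ⟨j, hj, hj'⟩ := this
    exact ⟨j, mem_range.1 hj, hj'⟩
  have haa : a = a' := by
    obtain ⟨j, -, hj⟩ := h1 0 (by omega)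
    obtain ⟨l, -, hl⟩ := h2 0 (by omega)
    rw [zero_mul, add_zero] at hj hl
    have h3 := Nat.zero_le (j * d')
    have h4 := Nat.zero_le (l * d)
    omega
  subst haa
  refine ⟨rfl, ?_⟩
  obtain ⟨j, -, hj⟩ := h1 1 (by omega)
  obtain ⟨l, -, hl⟩ := h2 1 (by omega)
  rw [one_mul] at hj hl
  have hj0 : 1 ≤ j := by
    rcases Nat.eq_zero_or_pos j with h0 | h0
    · subst h0; omega
    · exact h0
  have hl0 : 1 ≤ l := by
    rcases Nat.eq_zero_or_pos l with h0 | h0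
    · subst h0; omega
    · exact h0
  have h3 : d' ≤ j * d' := Nat.le_mul_of_pos_left _ hj0
  have h4 : d ≤ l * d := Nat.le_mul_of_pos_left _ hl0
  omega

theorem monoCount_eq {r k : ℕ} (hk : 2 ≤ k) (n : ℕ) (χ : ℕ → Fin r) :
    monoCount k n χ = mc k n χ := by
  classical
  unfold monoCount mc
  have h1 : {S : Finset ℕ | IsAP k n S ∧ ∃ c : Fin r, ∀ x ∈ S, χ x = c} =
      (fun p : ℕ × ℕ => (range k).image fun i => p.1 + i * p.2) ''
        (((pairs k n).filter fun p => ∀ j < k, χ (p.1 + j * p.2) = χ p.1 : Finset (ℕ × ℕ)) :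
          Set (ℕ × ℕ)) := by
    ext S
    constructor
    · rintro ⟨⟨a, d, ha, hd, hn, rfl⟩, c, hc⟩
      refine ⟨(a, d), ?_, rfl⟩
      rw [mem_coe, mem_filter]
      refine ⟨(mem_pairs hk).2 ⟨ha, hd, hn⟩, fun j hj => ?_⟩
      have h2 := hc (a + j * d) (mem_image.2 ⟨j, mem_range.2 hj, rfl⟩)
      have h3 := hc (a + 0 * d) (mem_image.2 ⟨0, mem_range.2 (by omega), rfl⟩)
      rw [zero_mul, add_zero] at h3
      show χ (a + j * d) = χ a
      rw [h2, h3]
    · rintro ⟨⟨a, d⟩, hp, rfl⟩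
      rw [mem_coe, mem_filter] at hp
      obtain ⟨ha, hd, hn⟩ := (mem_pairs hk).1 hp.1
      refine ⟨⟨a, d, ha, hd, hn, rfl⟩, χ a, ?_⟩
      intro x hx
      obtain ⟨j, hj, rfl⟩ := mem_image.1 hx
      exact hp.2 j (mem_range.1 hj)
  rw [h1, Set.InjOn.ncard_image, Set.ncard_coe_finset]
  rintro ⟨a, d⟩ hp ⟨a', d'⟩ hp' h
  rw [mem_coe, mem_filter] at hp hp'
  obtain ⟨-, hd, -⟩ := (mem_pairs hk).1 hp.1
  obtain ⟨-, hd', -⟩ := (mem_pairs hk).1 hp'.1
  obtain ⟨h2, h3⟩ := ap_inj hk hd hd' h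
  exact Prod.ext h2 h3

/-! ### The number of pairs -/

theorem card_pairs (k n : ℕ) (hk : 2 ≤ k) :
    ((pairs k n).card : ℝ) = ∑ d ∈ Icc 1 (n / (k - 1)), ((n : ℝ) - (k - 1 : ℕ) * d) := by
  have hK : 0 < k - 1 := by omega
  have h1 : (pairs k n) = (Icc 1 (n / (k - 1))).biUnion
      fun d => (Icc 1 (n - (k - 1) * d)).map ⟨fun a => (a, d), fun a b h => by simpa using h⟩ := by
    ext ⟨a, d⟩
    rw [mem_pairs hk, mem_biUnion]
    constructor
    · rintro ⟨h1, h2, h3⟩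
      refine ⟨d, ?_, ?_⟩
      · rw [mem_Icc, Nat.le_div_iff_mul_le hK]
        refine ⟨h2, ?_⟩
        rw [mul_comm]
        simp only at h3
        omega
      · simp only [mem_map, mem_Icc, Function.Embedding.coeFn_mk]
        simp only at h1 h3
        exact ⟨a, ⟨h1, by omega⟩, rfl⟩
    · rintro ⟨d', hd', h⟩
      simp only [mem_map, mem_Icc, Function.Embedding.coeFn_mk, Prod.mk.injEq] at h
      obtain ⟨a', ⟨h1, h2⟩, rfl, rfl⟩ := h
      rw [mem_Icc, Nat.le_div_iff_mul_le hK, mul_comm] at hd'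
      simp only
      exact ⟨h1, hd'.1, by omega⟩
  rw [h1, card_biUnion]
  · push_cast
    apply sum_congr rfl
    intro d hd
    rw [mem_Icc, Nat.le_div_iff_mul_le hK, mul_comm] at hd
    rw [card_map, Nat.card_Icc, Nat.add_sub_cancel, Nat.cast_sub hd.2]
    push_cast
    ring
  · intro d _ d' _ hdd'
    rw [Function.onFun, disjoint_left]
    rintro ⟨a, e⟩ h h'
    simp only [mem_map, Function.Embedding.coeFn_mk, Prod.mk.injEq] at h h'
    obtain ⟨_, _, _, h3⟩ := h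
    obtain ⟨_, _, _, h4⟩ := h'
    exact hdd' (h3.trans h4.symm)

theorem sum_formula (n K : ℝ) (D : ℕ) :
    ∑ d ∈ Icc 1 D, (n - K * d) = n * D - K * (D * (D + 1)) / 2 := by
  induction D with
  | zero => simp
  | succ D ih =>
    rw [sum_Icc_succ_top (by omega), ih]
    push_cast
    ring

theorem card_pairs_le (k n : ℕ) (hk : 2 ≤ k) :
    ((pairs k n).card : ℝ) ≤ (n : ℝ) ^ 2 / (2 * (k - 1)) := by
  have hK : 0 < k - 1 := by omega
  rw [card_pairs k n hk, sum_formula]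
  have hK' : ((k - 1 : ℕ) : ℝ) = (k : ℝ) - 1 := by
    rw [Nat.cast_sub (by omega)]; simp
  rw [hK']
  have hKpos : (0 : ℝ) < (k : ℝ) - 1 := by rw [← hK']; exact_mod_cast hK
  set D : ℝ := ((n / (k - 1) : ℕ) : ℝ) with hD
  have hD0 : 0 ≤ D := Nat.cast_nonneg _
  rw [le_div_iff₀ (by positivity)]
  nlinarith [sq_nonneg ((n : ℝ) - (k - 1) * D), mul_nonneg hKpos.le hD0,
    mul_nonneg (mul_nonneg hKpos.le hKpos.le) hD0]

theorem le_card_pairs (k n : ℕ) (hk : 2 ≤ k) :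
    (n : ℝ) ^ 2 / (2 * (k - 1)) - k * n ≤ ((pairs k n).card : ℝ) := by
  rcases Nat.eq_zero_or_pos n with hn | hn
  · subst hn
    simp
  have hK : 0 < k - 1 := by omega
  rw [card_pairs k n hk, sum_formula]
  have hK' : ((k - 1 : ℕ) : ℝ) = (k : ℝ) - 1 := by
    rw [Nat.cast_sub (by omega)]; simp
  rw [hK']
  have hKpos : (1 : ℝ) ≤ (k : ℝ) - 1 := by rw [← hK']; exact_mod_cast hK
  have h1 : (k - 1) * (n / (k - 1)) ≤ n := Nat.mul_div_le n (k - 1)
  have h2 : n < (k - 1) * (n / (k - 1)) + (k - 1) := by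
    have := Nat.lt_mul_div_succ n hK
    rw [mul_add, mul_one] at this
    exact this
  have h1' : ((k : ℝ) - 1) * ((n / (k - 1) : ℕ) : ℝ) ≤ n := by
    rw [← hK']; exact_mod_cast h1
  have h2' : (n : ℝ) ≤ ((k : ℝ) - 1) * ((n / (k - 1) : ℕ) : ℝ) + ((k : ℝ) - 1) := by
    rw [← hK']; exact_mod_cast h2.le
  have hn1 : (1 : ℝ) ≤ n := by exact_mod_cast hn
  set D : ℝ := ((n / (k - 1) : ℕ) : ℝ) with hD
  have hD0 : 0 ≤ D := Nat.cast_nonneg _
  set K : ℝ := (k : ℝ) - 1 with hKdef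
  have hkK : (k : ℝ) = K + 1 := by rw [hKdef]; ring
  rw [hkK]
  rw [sub_le_iff_le_add, div_le_iff₀ (by positivity)]
  have h3 : ((n : ℝ) - K * D) ^ 2 ≤ K * K := by
    have : 0 ≤ (n : ℝ) - K * D := by linarith
    have : (n : ℝ) - K * D ≤ K := by linarith
    nlinarith
  nlinarith [mul_nonneg (by linarith : (0 : ℝ) ≤ K) (by linarith : (0 : ℝ) ≤ (n : ℝ) - K * D),
    mul_nonneg (by linarith : (0 : ℝ) ≤ K) (by linarith : (0 : ℝ) ≤ (n : ℝ) - 1),
    mul_nonneg (mul_nonneg (by linarith : (0 : ℝ) ≤ K) (by linarith : (0 : ℝ) ≤ K)) (by linarith : (0 : ℝ) ≤ (n : ℝ) - 1)]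

/-! ### Interpolation -/

theorem mc_close {r k n : ℕ} (hk : 2 ≤ k) (χ χ' : ℕ → Fin r) (t : ℕ)
    (h : ∀ x, x ≠ t → χ x = χ' x) : mc k n χ ≤ mc k n χ' + k * n := by
  classical
  unfold mc
  have h1 : ((pairs k n).filter fun p => ∀ j < k, χ (p.1 + j * p.2) = χ p.1) ⊆
      ((pairs k n).filter fun p => ∀ j < k, χ' (p.1 + j * p.2) = χ' p.1) ∪
      ((range k).biUnion fun j => (pairs k n).filter fun p => p.1 + j * p.2 = t) := by
    intro p hp
    rw [mem_filter] at hp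
    rw [mem_union, mem_filter, mem_biUnion]
    by_cases hc : ∃ j < k, p.1 + j * p.2 = t
    · obtain ⟨j, hj, hj'⟩ := hc
      exact Or.inr ⟨j, mem_range.2 hj, mem_filter.2 ⟨hp.1, hj'⟩⟩
    · push Not at hc
      left
      refine ⟨hp.1, fun j hj => ?_⟩
      have h0 := hc 0 (by omega)
      rw [zero_mul, add_zero] at h0
      rw [← h _ (hc j hj), ← h _ h0]
      exact hp.2 j hj
  refine (card_le_card h1).trans ((card_union_le _ _).trans ?_)
  refine Nat.add_le_add_left ?_ _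
  refine (card_biUnion_le).trans ?_
  calc ∑ j ∈ range k, ((pairs k n).filter fun p => p.1 + j * p.2 = t).card
      ≤ ∑ _j ∈ range k, n := by
        apply sum_le_sum
        intro j _
        have h2 : ((pairs k n).filter fun p => p.1 + j * p.2 = t).card ≤ (Icc 1 n).card := by
          apply card_le_card_of_injOn (fun p => p.2)
          · intro p hp
            have hp' := mem_filter.1 (mem_coe.1 hp)
            have hp'' := (mem_filter.1 hp'.1).1
            exact mem_coe.2 (mem_product.1 hp'').2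
          · intro p hp q hq hpq
            have hp' := (mem_filter.1 (mem_coe.1 hp)).2
            have hq' := (mem_filter.1 (mem_coe.1 hq)).2
            simp only at hpq
            rw [hpq] at hp'
            refine Prod.ext ?_ hpq
            omega
        rw [Nat.card_Icc, Nat.add_sub_cancel] at h2
        exact h2
    _ = k * n := by rw [sum_const, card_range, smul_eq_mul]

theorem mc_const {r k n : ℕ} (χ : ℕ → Fin r) (c : Fin r) (hk : 2 ≤ k)
    (h : ∀ x, 1 ≤ x → x ≤ n → χ x = c) :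
    mc k n χ = (pairs k n).card := by
  unfold mc
  rw [filter_true_of_mem]
  intro p hp j hj
  obtain ⟨h1, h2, h3⟩ := (mem_pairs hk).1 hp
  have h4 : j * p.2 ≤ (k - 1) * p.2 := Nat.mul_le_mul_right _ (by omega)
  rw [h _ (by omega) (by omega), h _ h1 (by omega)]

/-- Interpolation between a colouring with few monochromatic progressions and a constant one. -/
theorem interpolate {r k n : ℕ} (hk : 2 ≤ k) (hr : 1 ≤ r) (δ : ℝ) (ψ : ℕ → Fin r)
    (h1 : (mc k n ψ : ℝ) ≤ δ * n ^ 2) (h2 : δ * (n : ℝ) ^ 2 - k * n ≤ ((pairs k n).card : ℝ)) :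
    ∃ χ : ℕ → Fin r, |(mc k n χ : ℝ) - δ * n ^ 2| ≤ k * n := by
  classical
  let c : Fin r := ⟨0, by omega⟩
  let φ : ℕ → ℕ → Fin r := fun i x => if x ≤ i then c else ψ x
  have hend : δ * (n : ℝ) ^ 2 - k * n ≤ (mc k n (φ n) : ℝ) := by
    rw [mc_const (φ n) c hk fun x _ hx => by simp [φ, hx]]
    exact h2
  have hex : ∃ i, δ * (n : ℝ) ^ 2 - k * n ≤ (mc k n (φ i) : ℝ) := ⟨n, hend⟩
  have hmin := Nat.find_spec hex
  have hlt : ∀ i < Nat.find hex, (mc k n (φ i) : ℝ) < δ * (n : ℝ) ^ 2 - k * n := by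
    intro i hi
    exact not_le.1 (Nat.find_min hex hi)
  set i := Nat.find hex with hi
  rcases Nat.eq_zero_or_pos i with h0 | h0
  · refine ⟨φ 0, ?_⟩
    rw [h0] at hmin
    have h3 : mc k n (φ 0) = mc k n ψ := by
      unfold mc
      congr 1
      apply filter_congr
      intro p hp
      obtain ⟨hp1, hp2, hp3⟩ := (mem_pairs hk).1 hp
      have h4 : ∀ x, 1 ≤ x → φ 0 x = ψ x := by
        intro x hx
        simp only [φ]
        rw [if_neg (by omega)]
      constructor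
      · intro h j hj
        rw [← h4 _ (by omega), ← h4 _ hp1]
        exact h j hj
      · intro h j hj
        rw [h4 _ (by omega), h4 _ hp1]
        exact h j hj
    rw [h3] at hmin ⊢
    rw [abs_le]
    constructor
    · linarith
    · have : (0 : ℝ) ≤ k * n := by positivity
      linarith
  · refine ⟨φ i, ?_⟩
    have h3 := hlt (i - 1) (by omega)
    have h4 : mc k n (φ i) ≤ mc k n (φ (i - 1)) + k * n := by
      apply mc_close hk _ _ i
      intro x hx
      simp only [φ]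
      by_cases h5 : x ≤ i
      · rw [if_pos h5, if_pos (by omega)]
      · rw [if_neg h5, if_neg (by omega)]
    have h5 : (mc k n (φ i) : ℝ) ≤ mc k n (φ (i - 1)) + k * n := by exact_mod_cast h4
    rw [abs_le]
    have : (0 : ℝ) ≤ k * n := by positivity
    constructor <;> linarith

/-! ### Random colourings -/

theorem exists_le_expect {ι α : Type} [Fintype ι] [DecidableEq ι] {r : ℕ} (p : ι → Fin r → ℝ)
    (hp0 : ∀ x c, 0 ≤ p x c) (hp1 : ∀ x, ∑ c, p x c = 1) (J : Finset α) (S : α → Finset ι) :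
    ∃ χ : ι → Fin r, ∑ t ∈ J, ∑ c, (if ∀ x ∈ S t, χ x = c then (1 : ℝ) else 0) ≤
      ∑ t ∈ J, ∑ c, ∏ x ∈ S t, p x c := by
  classical
  by_contra hcon
  push Not at hcon
  let W : (ι → Fin r) → ℝ := fun χ => ∏ x, p x (χ x)
  have hW0 : ∀ χ, 0 ≤ W χ := fun χ => prod_nonneg fun x _ => hp0 x _
  have hW1 : ∑ χ, W χ = 1 := by
    have h := Finset.prod_univ_sum (fun _ : ι => (univ : Finset (Fin r))) (fun x c => p x c)
    rw [Fintype.piFinset_univ] at h
    rw [← h]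
    exact prod_eq_one fun x _ => hp1 x
  have hWS : ∀ (T : Finset ι) (c : Fin r),
      ∑ χ, W χ * (if ∀ x ∈ T, χ x = c then (1 : ℝ) else 0) = ∏ x ∈ T, p x c := by
    intro T c
    have h := Finset.prod_univ_sum (fun _ : ι => (univ : Finset (Fin r)))
      (fun x b => p x b * (if x ∈ T then (if b = c then (1 : ℝ) else 0) else 1))
    rw [Fintype.piFinset_univ] at h
    have h1 : ∀ χ : ι → Fin r, W χ * (if ∀ x ∈ T, χ x = c then (1 : ℝ) else 0) =
        ∏ x, p x (χ x) * (if x ∈ T then (if χ x = c then (1 : ℝ) else 0) else 1) := by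
      intro χ
      rw [prod_mul_distrib]
      congr 1
      rw [prod_ite, prod_const_one, mul_one]
      simp only [filter_univ_mem]
      rw [prod_ite, prod_const_one, one_mul]
      by_cases hc : ∀ x ∈ T, χ x = c
      · rw [if_pos hc]
        have : T.filter (fun x => ¬ χ x = c) = ∅ := by
          rw [filter_eq_empty_iff]
          intro x hx
          simpa using hc x hx
        rw [this]
        simp
      · rw [if_neg hc]
        push Not at hc
        obtain ⟨x, hx, hxc⟩ := hc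
        symm
        apply prod_eq_zero (mem_filter.2 ⟨hx, hxc⟩) rfl
    rw [sum_congr rfl fun χ _ => h1 χ, ← h]
    have h2 : ∀ x : ι, ∑ b, p x b * (if x ∈ T then (if b = c then (1 : ℝ) else 0) else 1) =
        if x ∈ T then p x c else 1 := by
      intro x
      by_cases hx : x ∈ T
      · simp [hx]
      · simp [hx, hp1]
    rw [prod_congr rfl fun x _ => h2 x, prod_ite, prod_const_one, mul_one]
    simp only [filter_univ_mem]
  set E := ∑ t ∈ J, ∑ c, ∏ x ∈ S t, p x c with hE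
  let L : (ι → Fin r) → ℝ := fun χ => ∑ t ∈ J, ∑ c, (if ∀ x ∈ S t, χ x = c then (1 : ℝ) else 0)
  have hL : ∑ χ, W χ * L χ = E := by
    simp only [L]
    rw [hE]
    simp only [mul_sum]
    rw [sum_comm]
    apply sum_congr rfl
    intro t _
    rw [sum_comm]
    apply sum_congr rfl
    intro c _
    exact hWS (S t) c
  have hzero : ∑ χ, W χ * (L χ - E) = 0 := by
    simp only [mul_sub]
    rw [sum_sub_distrib, hL, ← sum_mul, hW1]
    ring
  obtain ⟨χ₀, hχ₀⟩ : ∃ χ, 0 < W χ := by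
    by_contra h
    push Not at h
    have : ∑ χ, W χ ≤ 0 := sum_nonpos fun χ _ => h χ
    linarith
  have hpos : 0 < ∑ χ, W χ * (L χ - E) := by
    apply sum_pos' (fun χ _ => mul_nonneg (hW0 χ) (sub_nonneg.2 (hcon χ).le))
    exact ⟨χ₀, mem_univ _, mul_pos hχ₀ (sub_pos.2 (hcon χ₀))⟩
  linarith

/-- The expected number of monochromatic progressions bounds the minimum. -/
theorem exists_mc_le {r k n : ℕ} (hk : 2 ≤ k) (p : ℕ → Fin r → ℝ)
    (hp0 : ∀ x c, 0 ≤ p x c) (hp1 : ∀ x, ∑ c, p x c = 1) :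
    ∃ χ : ℕ → Fin r, (mc k n χ : ℝ) ≤ ∑ t ∈ pairs k n, ∑ c, ∏ j ∈ range k, p (t.1 + j * t.2) c := by
  classical
  obtain ⟨χ, hχ⟩ := exists_le_expect (ι := Fin (n + 1)) (fun x c => p x.1 c) (fun x c => hp0 _ _)
    (fun x => hp1 _) (pairs k n) (fun t => (range k).image fun j => Fin.ofNat (n + 1) (t.1 + j * t.2))
  let χ' : ℕ → Fin r := fun x => χ (Fin.ofNat (n + 1) x)
  refine ⟨χ', ?_⟩
  have hbd : ∀ t ∈ pairs k n, ∀ j < k, t.1 + j * t.2 < n + 1 := by
    intro t ht j hj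
    obtain ⟨h1, h2, h3⟩ := (mem_pairs hk).1 ht
    have h4 : j * t.2 ≤ (k - 1) * t.2 := Nat.mul_le_mul_right _ (by omega)
    omega
  have hval : ∀ t ∈ pairs k n, ∀ j < k, (Fin.ofNat (n + 1) (t.1 + j * t.2)).1 = t.1 + j * t.2 := by
    intro t ht j hj
    show (t.1 + j * t.2) % (n + 1) = _
    exact Nat.mod_eq_of_lt (hbd t ht j hj)
  calc (mc k n χ' : ℝ) = ∑ t ∈ pairs k n,
        (if ∀ j < k, χ' (t.1 + j * t.2) = χ' t.1 then (1 : ℝ) else 0) := by
        unfold mc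
        rw [card_filter]
        push_cast
        rfl
    _ = ∑ t ∈ pairs k n, ∑ c, (if ∀ x ∈ (range k).image fun j => Fin.ofNat (n + 1) (t.1 + j * t.2),
        χ x = c then (1 : ℝ) else 0) := by
        apply sum_congr rfl
        intro t ht
        have h5 : ∀ c : Fin r, (∀ x ∈ (range k).image fun j => Fin.ofNat (n + 1) (t.1 + j * t.2),
            χ x = c) ↔ (c = χ' t.1 ∧ ∀ j < k, χ' (t.1 + j * t.2) = χ' t.1) := by
          intro c
          constructor
          · intro h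
            have h6 : ∀ j < k, χ' (t.1 + j * t.2) = c := by
              intro j hj
              exact h _ (mem_image.2 ⟨j, mem_range.2 hj, rfl⟩)
            have h7 := h6 0 (by omega)
            rw [zero_mul, add_zero] at h7
            exact ⟨h7.symm, fun j hj => by rw [h6 j hj, h7]⟩
          · rintro ⟨h6, h7⟩ x hx
            obtain ⟨j, hj, rfl⟩ := mem_image.1 hx
            rw [h6]
            exact h7 j (mem_range.1 hj)
        simp only [h5]
        by_cases hc : ∀ j < k, χ' (t.1 + j * t.2) = χ' t.1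
        · rw [if_pos hc]
          have h8 : ∀ c : Fin r, (c = χ' t.1 ∧ ∀ j < k, χ' (t.1 + j * t.2) = χ' t.1) ↔
              c = χ' t.1 := fun c => and_iff_left hc
          simp only [h8, sum_ite_eq', mem_univ, if_true]
        · rw [if_neg hc]
          symm
          apply sum_eq_zero
          intro c _
          rw [if_neg]
          rintro ⟨-, h⟩
          exact hc h
    _ ≤ ∑ t ∈ pairs k n, ∑ c, ∏ x ∈ (range k).image fun j => Fin.ofNat (n + 1) (t.1 + j * t.2),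
          p x.1 c := by convert hχ
    _ = ∑ t ∈ pairs k n, ∑ c, ∏ j ∈ range k, p (t.1 + j * t.2) c := by
        apply sum_congr rfl
        intro t ht
        apply sum_congr rfl
        intro c _
        rw [prod_image]
        · apply prod_congr rfl
          intro j hj
          show p (Fin.ofNat (n + 1) (t.1 + j * t.2)).1 c = _
          rw [hval t ht j (mem_range.1 hj)]
        · intro j hj j' hj' h
          have h1 := congrArg Fin.val h
          rw [hval t ht j (mem_range.1 hj), hval t ht j' (mem_range.1 hj')] at h1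
          obtain ⟨-, h2, -⟩ := (mem_pairs hk).1 ht
          have h3 : j * t.2 = j' * t.2 := by omega
          exact Nat.eq_of_mul_eq_mul_right (by omega) h3

/-! ### Expansion in the bias -/

theorem expand (k : ℕ) : ∃ C : ℝ, 0 ≤ C ∧ ∀ (g : ℕ → ℝ) (η : ℝ), (∀ j, |g j| ≤ 2) → 0 ≤ η → η ≤ 1 →
    |(∏ j ∈ range k, (1 + η * g j)) + (∏ j ∈ range k, (1 - η * g j)) - 2 -
      2 * η ^ 2 * ∑ j ∈ range k, ∑ i ∈ range j, g i * g j| ≤ C * η ^ 4 ∧
    |(∏ j ∈ range k, (1 + η * g j)) - (∏ j ∈ range k, (1 - η * g j)) -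
      2 * η * ∑ j ∈ range k, g j| ≤ C * η ^ 3 := by
  induction k with
  | zero =>
    refine ⟨0, le_rfl, fun g η _ _ _ => ?_⟩
    simp
    norm_num
  | succ k ih =>
    obtain ⟨C, hC0, hC⟩ := ih
    refine ⟨3 * C + 16 * (k : ℝ) ^ 2, by positivity, fun g η hg h0 h1 => ?_⟩
    obtain ⟨hA, hB⟩ := hC g η hg h0 h1
    simp only [prod_range_succ, sum_range_succ]
    set P := ∏ j ∈ range k, (1 + η * g j)
    set Q := ∏ j ∈ range k, (1 - η * g j)
    set e2 := ∑ j ∈ range k, ∑ i ∈ range j, g i * g j with he2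
    have he1 : ∑ i ∈ range k, g i * g k = (∑ j ∈ range k, g j) * g k := by rw [sum_mul]
    rw [he1]
    set e1 := ∑ j ∈ range k, g j
    have hgk := hg k
    have hηg : |η * g k| ≤ 2 * η := by
      rw [abs_mul, abs_of_nonneg h0]
      nlinarith
    have he2' : |e2| ≤ 4 * (k : ℝ) ^ 2 := by
      have h3 : |e2| ≤ ∑ j ∈ range k, ∑ i ∈ range j, |g i * g j| :=
        (abs_sum_le_sum_abs _ _).trans (sum_le_sum fun j _ => abs_sum_le_sum_abs _ _)
      have h4 : ∑ j ∈ range k, ∑ i ∈ range j, |g i * g j| ≤ ∑ j ∈ range k, (k : ℝ) * 4 := by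
        apply sum_le_sum
        intro j hj
        calc ∑ i ∈ range j, |g i * g j| ≤ ∑ _i ∈ range j, (4 : ℝ) := by
              apply sum_le_sum
              intro i _
              rw [abs_mul]
              nlinarith [hg i, hg j, abs_nonneg (g i), abs_nonneg (g j)]
          _ = (j : ℝ) * 4 := by rw [sum_const, card_range, nsmul_eq_mul]
          _ ≤ (k : ℝ) * 4 := by
              have : (j : ℝ) ≤ k := by exact_mod_cast (mem_range.1 hj).le
              linarith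
      rw [sum_const, card_range, nsmul_eq_mul] at h4
      nlinarith
    have hη3 : η ^ 4 ≤ η ^ 3 := pow_le_pow_of_le_one h0 h1 (by norm_num)
    have hη4 : 0 ≤ η ^ 4 := by positivity
    have hη3' : 0 ≤ η ^ 3 := by positivity
    constructor
    · have heq : P * (1 + η * g k) + Q * (1 - η * g k) - 2 - 2 * η ^ 2 * (e2 + e1 * g k) =
          (P + Q - 2 - 2 * η ^ 2 * e2) + (η * g k) * (P - Q - 2 * η * e1) := by ring
      rw [heq]
      refine (abs_add_le _ _).trans ?_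
      rw [abs_mul]
      have h5 : |η * g k| * |P - Q - 2 * η * e1| ≤ (2 * η) * (C * η ^ 3) :=
        mul_le_mul hηg hB (abs_nonneg _) (by positivity)
      have h6 : (2 * η) * (C * η ^ 3) = 2 * C * η ^ 4 := by ring
      have h7 : 0 ≤ 16 * (k : ℝ) ^ 2 * η ^ 4 := by positivity
      nlinarith
    · have heq : P * (1 + η * g k) - Q * (1 - η * g k) - 2 * η * (e1 + g k) =
          (P - Q - 2 * η * e1) + (η * g k) * ((P + Q - 2 - 2 * η ^ 2 * e2) + 2 * η ^ 2 * e2) := by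
        ring
      rw [heq]
      refine (abs_add_le _ _).trans ?_
      rw [abs_mul]
      have h8 : |(P + Q - 2 - 2 * η ^ 2 * e2) + 2 * η ^ 2 * e2| ≤
          C * η ^ 4 + 2 * η ^ 2 * (4 * (k : ℝ) ^ 2) := by
        refine (abs_add_le _ _).trans (add_le_add hA ?_)
        rw [abs_mul, abs_of_nonneg (by positivity : 0 ≤ 2 * η ^ 2)]
        exact mul_le_mul_of_nonneg_left he2' (by positivity)
      have h5 : |η * g k| * |(P + Q - 2 - 2 * η ^ 2 * e2) + 2 * η ^ 2 * e2| ≤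
          (2 * η) * (C * η ^ 4 + 2 * η ^ 2 * (4 * (k : ℝ) ^ 2)) :=
        mul_le_mul hηg h8 (abs_nonneg _) (by positivity)
      have h6 : (2 * η) * (C * η ^ 4 + 2 * η ^ 2 * (4 * (k : ℝ) ^ 2)) =
          2 * C * (η * η ^ 4) + 16 * (k : ℝ) ^ 2 * η ^ 3 := by ring
      have h9 : η * η ^ 4 ≤ η ^ 3 := by nlinarith
      have h10 : 2 * C * (η * η ^ 4) ≤ 2 * C * η ^ 3 := by
        apply mul_le_mul_of_nonneg_left h9 (by positivity)
      nlinarith

/-! ### The bias -/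

/-- the indicator of the interval `[a, a + ℓ)` -/
noncomputable def ind (a ℓ x : ℕ) : ℝ := if x ∈ Ico a (a + ℓ) then 1 else 0

/-- the bias: `1, -2, 1` on three intervals of length `ℓ`. -/
noncomputable def bias (u ℓ x : ℕ) : ℝ := ind u ℓ x - 2 * ind (u + 3 * ℓ) ℓ x + ind (u + 6 * ℓ) ℓ x

theorem ind_cases (a ℓ x : ℕ) : (a ≤ x ∧ x < a + ℓ ∧ ind a ℓ x = 1) ∨
    (¬ (a ≤ x ∧ x < a + ℓ) ∧ ind a ℓ x = 0) := by
  unfold ind
  by_cases h : x ∈ Ico a (a + ℓ)
  · rw [if_pos h]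
    rw [mem_Ico] at h
    exact Or.inl ⟨h.1, h.2, rfl⟩
  · rw [if_neg h]
    rw [mem_Ico] at h
    exact Or.inr ⟨h, rfl⟩

theorem bias_cases (u ℓ x : ℕ) :
    (u ≤ x ∧ x < u + ℓ ∧ bias u ℓ x = 1) ∨
    (u + 3 * ℓ ≤ x ∧ x < u + 4 * ℓ ∧ bias u ℓ x = -2) ∨
    (u + 6 * ℓ ≤ x ∧ x < u + 7 * ℓ ∧ bias u ℓ x = 1) ∨ bias u ℓ x = 0 := by
  unfold bias
  rcases ind_cases u ℓ x with ⟨h1, h2, h3⟩ | ⟨h1, h3⟩ <;>
  rcases ind_cases (u + 3 * ℓ) ℓ x with ⟨h4, h5, h6⟩ | ⟨h4, h6⟩ <;>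
  rcases ind_cases (u + 6 * ℓ) ℓ x with ⟨h7, h8, h9⟩ | ⟨h7, h9⟩
  · omega
  · omega
  · omega
  · left; refine ⟨h1, h2, ?_⟩; rw [h3, h6, h9]; norm_num
  · omega
  · right; left; refine ⟨h4, by omega, ?_⟩; rw [h3, h6, h9]; norm_num
  · right; right; left; refine ⟨h7, by omega, ?_⟩; rw [h3, h6, h9]; norm_num
  · right; right; right; rw [h3, h6, h9]; norm_num

theorem abs_bias (u ℓ x : ℕ) : |bias u ℓ x| ≤ 2 := by
  rcases bias_cases u ℓ x with ⟨-, -, h⟩ | ⟨-, -, h⟩ | ⟨-, -, h⟩ | h <;> rw [h] <;> norm_num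

theorem sum_ind (a ℓ n : ℕ) (ha : 1 ≤ a) (hn : a + ℓ ≤ n + 1) (f : ℕ → ℝ) :
    ∑ y ∈ Icc 1 n, f y * ind a ℓ y = ∑ y ∈ Ico a (a + ℓ), f y := by
  unfold ind
  simp only [mul_ite, mul_one, mul_zero]
  rw [sum_ite_mem]
  congr 1
  rw [inter_eq_right]
  intro y hy
  rw [mem_Ico] at hy
  rw [mem_Icc]
  omega

theorem row_sum (u ℓ n s x : ℕ) (hu : 1 ≤ u) (hn : u + 7 * ℓ ≤ n + 1) (hs : s ∣ ℓ) :
    ∑ y ∈ Icc 1 n, (if x ≡ y [MOD s] then (1 : ℝ) else 0) * bias u ℓ y = 0 := by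
  unfold bias
  have h1 : ∀ y, (if x ≡ y [MOD s] then (1 : ℝ) else 0) *
      (ind u ℓ y - 2 * ind (u + 3 * ℓ) ℓ y + ind (u + 6 * ℓ) ℓ y) =
      (if x ≡ y [MOD s] then (1 : ℝ) else 0) * ind u ℓ y -
      2 * ((if x ≡ y [MOD s] then (1 : ℝ) else 0) * ind (u + 3 * ℓ) ℓ y) +
      (if x ≡ y [MOD s] then (1 : ℝ) else 0) * ind (u + 6 * ℓ) ℓ y := by
    intro y; ring
  simp only [h1]
  rw [sum_add_distrib, sum_sub_distrib, ← mul_sum]
  rw [sum_ind u ℓ n hu (by omega), sum_ind (u + 3 * ℓ) ℓ n (by omega) (by omega),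
    sum_ind (u + 6 * ℓ) ℓ n (by omega) (by omega)]
  have h2 : ∀ c, s ∣ c → ∑ y ∈ Ico (u + c) (u + c + ℓ), (if x ≡ y [MOD s] then (1 : ℝ) else 0) =
      ∑ y ∈ Ico u (u + ℓ), (if x ≡ y [MOD s] then (1 : ℝ) else 0) := by
    intro c hc
    have h3 : u + c + ℓ = u + ℓ + c := by ring
    rw [h3, ← sum_Ico_add' (fun y => if x ≡ y [MOD s] then (1 : ℝ) else 0) u (u + ℓ) c]
    apply sum_congr rfl
    intro y _
    have h4 : x ≡ y + c [MOD s] ↔ x ≡ y [MOD s] := by
      have h5 : y + c ≡ y [MOD s] := by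
        have := (Nat.modEq_zero_iff_dvd.2 hc).add_left y
        simpa using this
      exact ⟨fun h => h.trans h5, fun h => h.trans h5.symm⟩
    simp only [h4]
  rw [h2 (3 * ℓ) (Dvd.dvd.mul_left hs 3), h2 (6 * ℓ) (Dvd.dvd.mul_left hs 6)]
  ring

/-- pairs `x < y` that are congruent modulo `s`. -/
def V (n s : ℕ) : Finset (ℕ × ℕ) :=
  (Icc 1 n ×ˢ Icc 1 n).filter fun p => p.1 < p.2 ∧ p.1 ≡ p.2 [MOD s]

theorem sum_V_nonpos (u ℓ n s : ℕ) (hu : 1 ≤ u) (hn : u + 7 * ℓ ≤ n + 1) (hs : s ∣ ℓ) :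
    ∑ p ∈ V n s, bias u ℓ p.1 * bias u ℓ p.2 ≤ 0 := by
  set g := bias u ℓ with hg
  have htot : ∑ x ∈ Icc 1 n, ∑ y ∈ Icc 1 n,
      (if x ≡ y [MOD s] then (1 : ℝ) else 0) * (g x * g y) = 0 := by
    apply sum_eq_zero
    intro x _
    have h1 : ∀ y, (if x ≡ y [MOD s] then (1 : ℝ) else 0) * (g x * g y) =
        g x * ((if x ≡ y [MOD s] then (1 : ℝ) else 0) * g y) := by intro y; ring
    simp only [h1]
    rw [← mul_sum, row_sum u ℓ n s x hu hn hs, mul_zero]
  have hV : ∑ p ∈ V n s, g p.1 * g p.2 = ∑ x ∈ Icc 1 n, ∑ y ∈ Icc 1 n,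
      (if x < y ∧ x ≡ y [MOD s] then g x * g y else 0) := by
    unfold V
    rw [sum_filter, sum_product]
  have hV' : ∑ p ∈ V n s, g p.1 * g p.2 = ∑ x ∈ Icc 1 n, ∑ y ∈ Icc 1 n,
      (if y < x ∧ x ≡ y [MOD s] then g x * g y else 0) := by
    rw [hV, sum_comm]
    apply sum_congr rfl
    intro x _
    apply sum_congr rfl
    intro y _
    have h1 : (y < x ∧ y ≡ x [MOD s]) ↔ (y < x ∧ x ≡ y [MOD s]) :=
      ⟨fun h => ⟨h.1, h.2.symm⟩, fun h => ⟨h.1, h.2.symm⟩⟩
    simp only [h1, mul_comm (g y) (g x)]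
  have hD : 0 ≤ ∑ x ∈ Icc 1 n, ∑ y ∈ Icc 1 n, (if x = y then g x * g y else 0) := by
    apply sum_nonneg
    intro x _
    apply sum_nonneg
    intro y _
    split_ifs with h
    · subst h; exact mul_self_nonneg _
    · exact le_rfl
  have hsum : ∑ x ∈ Icc 1 n, ∑ y ∈ Icc 1 n,
      (if x ≡ y [MOD s] then (1 : ℝ) else 0) * (g x * g y) =
      (∑ x ∈ Icc 1 n, ∑ y ∈ Icc 1 n, (if x < y ∧ x ≡ y [MOD s] then g x * g y else 0)) +
      (∑ x ∈ Icc 1 n, ∑ y ∈ Icc 1 n, (if y < x ∧ x ≡ y [MOD s] then g x * g y else 0)) +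
      ∑ x ∈ Icc 1 n, ∑ y ∈ Icc 1 n, (if x = y then g x * g y else 0) := by
    rw [← sum_add_distrib, ← sum_add_distrib]
    apply sum_congr rfl
    intro x _
    rw [← sum_add_distrib, ← sum_add_distrib]
    apply sum_congr rfl
    intro y _
    rcases lt_trichotomy x y with h | h | h
    · by_cases hm : x ≡ y [MOD s]
      · rw [if_pos hm, if_pos ⟨h, hm⟩, if_neg (by omega), if_neg (by omega)]; ring
      · rw [if_neg hm, if_neg (fun h' => hm h'.2), if_neg (by omega), if_neg (by omega)]; ring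
    · subst h
      rw [if_pos (Nat.ModEq.refl x), if_neg (by omega), if_pos rfl]
      ring
    · by_cases hm : x ≡ y [MOD s]
      · rw [if_pos hm, if_neg (by omega), if_pos ⟨h, hm⟩, if_neg (by omega)]; ring
      · rw [if_neg hm, if_neg (by omega), if_neg (fun h' => hm h'.2), if_neg (by omega)]; ring
  rw [htot, ← hV, ← hV'] at hsum
  linarith

/-- Placing the two chosen terms of a progression. -/
theorem T_le (m ℓ n i j : ℕ) (hn : 8 * (m + 3) * ℓ ≤ n) (hij : i < j)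
    (hj : j < m + 3) :
    ∃ I ⊆ V n (j - i),
      ∑ t ∈ pairs (m + 3) n, bias (4 * (m + 1) * ℓ + 1) ℓ (t.1 + i * t.2) *
        bias (4 * (m + 1) * ℓ + 1) ℓ (t.1 + j * t.2) =
        ∑ p ∈ I, bias (4 * (m + 1) * ℓ + 1) ℓ p.1 * bias (4 * (m + 1) * ℓ + 1) ℓ p.2 ∧
      (∀ p ∈ V n (j - i) \ I, 0 ≤ bias (4 * (m + 1) * ℓ + 1) ℓ p.1 *
        bias (4 * (m + 1) * ℓ + 1) ℓ p.2) ∧
      ∀ p ∈ I, ∃ a d, 1 ≤ a ∧ p = (a + i * d, a + j * d) := by
  set u := 4 * (m + 1) * ℓ + 1 with hu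
  let φ : ℕ × ℕ → ℕ × ℕ := fun t => (t.1 + i * t.2, t.1 + j * t.2)
  obtain ⟨s, hs⟩ : ∃ s, j = i + s := ⟨j - i, by omega⟩
  have hs0 : 0 < s := by omega
  have hsub : j - i = s := by omega
  have hinj : Set.InjOn φ (pairs (m + 3) n : Set (ℕ × ℕ)) := by
    rintro ⟨a, d⟩ _ ⟨a', d'⟩ _ h
    simp only [φ, Prod.mk.injEq] at h
    obtain ⟨h1, h2⟩ := h
    rw [hs, add_mul, add_mul, ← add_assoc, ← add_assoc, h1] at h2
    have h3 : s * d = s * d' := Nat.add_left_cancel h2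
    have h4 : d = d' := Nat.eq_of_mul_eq_mul_left hs0 h3
    subst h4
    have h5 : a = a' := Nat.add_right_cancel h1
    rw [h5]
  refine ⟨(pairs (m + 3) n).image φ, ?_, ?_, ?_, ?_⟩
  · intro p hp
    obtain ⟨⟨a, d⟩, ht, rfl⟩ := mem_image.1 hp
    obtain ⟨h1, h2, h3⟩ := (mem_pairs (by omega)).1 ht
    simp only at h1 h2 h3
    have h4 : j * d ≤ (m + 3 - 1) * d := Nat.mul_le_mul_right _ (by omega)
    have h5 : j * d = i * d + s * d := by rw [hs, add_mul]
    have h6 : 1 ≤ s * d := Nat.mul_pos hs0 h2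
    unfold V
    rw [mem_filter, mem_product, mem_Icc, mem_Icc]
    simp only [φ]
    refine ⟨⟨⟨by omega, by omega⟩, by omega, by omega⟩, by omega, ?_⟩
    rw [hsub, Nat.modEq_iff_dvd' (by omega)]
    have : a + j * d - (a + i * d) = s * d := by omega
    rw [this]
    exact dvd_mul_right s d
  · rw [sum_image]
    intro x hx y hy h
    exact hinj hx hy h
  · intro p hp
    rw [mem_sdiff] at hp
    obtain ⟨hpV, hpI⟩ := hp
    unfold V at hpV
    rw [mem_filter, mem_product, mem_Icc, mem_Icc, hsub] at hpV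
    obtain ⟨⟨⟨hx1, hx2⟩, hy1, hy2⟩, hlt, hmod⟩ := hpV
    -- harmless pairs are in the image
    have key : u ≤ p.1 → p.2 < u + 7 * ℓ → p.2 - p.1 ≤ 4 * ℓ → False := by
      intro h1 h2 h3
      apply hpI
      rw [Nat.modEq_iff_dvd' hlt.le] at hmod
      obtain ⟨d, hd⟩ := hmod
      have hd1 : 1 ≤ d := by
        rcases Nat.eq_zero_or_pos d with h0 | h0
        · subst h0; omega
        · exact h0
      have hdl : d ≤ 4 * ℓ := by
        have : d ≤ s * d := Nat.le_mul_of_pos_left _ hs0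
        omega
      have h4 : i * d ≤ (m + 1) * (4 * ℓ) := Nat.mul_le_mul (by omega) hdl
      have h5 : (m + 1) * (4 * ℓ) = 4 * (m + 1) * ℓ := by ring
      have h6 : (m + 2) * d ≤ (m + 2) * (4 * ℓ) := Nat.mul_le_mul_left _ hdl
      have h7 : j * d = i * d + s * d := by rw [hs, add_mul]
      have h8 : 8 * (m + 3) * ℓ = 8 * (m * ℓ) + 24 * ℓ := by ring
      have h9 : (m + 2) * (4 * ℓ) = 4 * (m * ℓ) + 8 * ℓ := by ring
      have h10 : 4 * (m + 1) * ℓ = 4 * (m * ℓ) + 4 * ℓ := by ring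
      refine mem_image.2 ⟨(p.1 - i * d, d), (mem_pairs (by omega)).2 ⟨?_, hd1, ?_⟩, ?_⟩
      · simp only
        omega
      · simp only
        have : m + 3 - 1 = m + 2 := by omega
        rw [this]
        omega
      · simp only [φ]
        refine Prod.ext ?_ ?_
        · simp only; omega
        · simp only; omega
    rcases bias_cases u ℓ p.1 with ⟨a1, a2, a3⟩ | ⟨a1, a2, a3⟩ | ⟨a1, a2, a3⟩ | a3 <;>
    rcases bias_cases u ℓ p.2 with ⟨b1, b2, b3⟩ | ⟨b1, b2, b3⟩ | ⟨b1, b2, b3⟩ | b3 <;>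
    rw [a3, b3]
    all_goals first
      | norm_num; done
      | (exfalso; omega)
      | (exfalso; exact key (by omega) (by omega) (by omega))
  · intro p hp
    obtain ⟨⟨a, d⟩, ht, rfl⟩ := mem_image.1 hp
    obtain ⟨h1, h2, h3⟩ := (mem_pairs (by omega)).1 ht
    exact ⟨a, d, h1, rfl⟩

theorem T_nonpos (m ℓ n i j : ℕ) (hn : 8 * (m + 3) * ℓ ≤ n) (hij : i < j)
    (hj : j < m + 3) (hdvd : ∀ s, 1 ≤ s → s ≤ m + 2 → s ∣ ℓ) :
    ∑ t ∈ pairs (m + 3) n, bias (4 * (m + 1) * ℓ + 1) ℓ (t.1 + i * t.2) *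
        bias (4 * (m + 1) * ℓ + 1) ℓ (t.1 + j * t.2) ≤ 0 := by
  obtain ⟨I, hI, h1, h2, -⟩ := T_le m ℓ n i j hn hij hj
  rw [h1]
  have h3 := sum_sdiff hI (f := fun p : ℕ × ℕ => bias (4 * (m + 1) * ℓ + 1) ℓ p.1 *
    bias (4 * (m + 1) * ℓ + 1) ℓ p.2)
  have h4 := sum_nonneg h2
  have h5 := sum_V_nonpos (4 * (m + 1) * ℓ + 1) ℓ n (j - i) (by omega) (by nlinarith)
    (hdvd _ (by omega) (by omega))
  linarith

theorem T_last (m ℓ n : ℕ) (hn : 8 * (m + 3) * ℓ ≤ n) :
    ∑ t ∈ pairs (m + 3) n, bias (4 * (m + 1) * ℓ + 1) ℓ (t.1 + (m + 1) * t.2) *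
        bias (4 * (m + 1) * ℓ + 1) ℓ (t.1 + (m + 2) * t.2) ≤ -(ℓ : ℝ) ^ 2 := by
  obtain ⟨I, hI, h1, h2, hI'⟩ := T_le m ℓ n (m + 1) (m + 2) hn (by omega) (by omega)
  rw [h1]
  have e : m + 2 - (m + 1) = 1 := by omega
  rw [e] at hI h2
  have h3 := sum_sdiff hI (f := fun p : ℕ × ℕ => bias (4 * (m + 1) * ℓ + 1) ℓ p.1 *
    bias (4 * (m + 1) * ℓ + 1) ℓ p.2)
  have h5 := sum_V_nonpos (4 * (m + 1) * ℓ + 1) ℓ n 1 (by omega) (by nlinarith) (one_dvd ℓ)
  set u := 4 * (m + 1) * ℓ + 1 with hu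
  have h4 : (ℓ : ℝ) ^ 2 ≤ ∑ p ∈ V n 1 \ I, bias u ℓ p.1 * bias u ℓ p.2 := by
    have h6 : (ℓ : ℝ) ^ 2 = ∑ p ∈ Ico u (u + ℓ) ×ˢ Ico (u + 6 * ℓ) (u + 7 * ℓ),
        bias u ℓ p.1 * bias u ℓ p.2 := by
      have h7 : ∀ p ∈ Ico u (u + ℓ) ×ˢ Ico (u + 6 * ℓ) (u + 7 * ℓ),
          bias u ℓ p.1 * bias u ℓ p.2 = 1 := by
        intro p hp
        rw [mem_product, mem_Ico, mem_Ico] at hp
        have ha : bias u ℓ p.1 = 1 := by
          rcases bias_cases u ℓ p.1 with ⟨a1, a2, a3⟩ | ⟨a1, a2, a3⟩ | ⟨a1, a2, a3⟩ | a3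
          · exact a3
          · omega
          · omega
          · exfalso
            unfold bias at a3
            rcases ind_cases u ℓ p.1 with ⟨h1, h2, h3⟩ | ⟨h1, h3⟩
            · rcases ind_cases (u + 3 * ℓ) ℓ p.1 with ⟨h4, h5, h6⟩ | ⟨h4, h6⟩
              · omega
              · rcases ind_cases (u + 6 * ℓ) ℓ p.1 with ⟨h7, h8, h9⟩ | ⟨h7, h9⟩
                · omega
                · rw [h3, h6, h9] at a3; norm_num at a3
            · omega
        have hb : bias u ℓ p.2 = 1 := by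
          rcases bias_cases u ℓ p.2 with ⟨a1, a2, a3⟩ | ⟨a1, a2, a3⟩ | ⟨a1, a2, a3⟩ | a3
          · omega
          · omega
          · exact a3
          · exfalso
            unfold bias at a3
            rcases ind_cases u ℓ p.2 with ⟨h1, h2, h3⟩ | ⟨h1, h3⟩
            · omega
            · rcases ind_cases (u + 3 * ℓ) ℓ p.2 with ⟨h4, h5, h6⟩ | ⟨h4, h6⟩
              · omega
              · rcases ind_cases (u + 6 * ℓ) ℓ p.2 with ⟨h7, h8, h9⟩ | ⟨h7, h9⟩
                · rw [h3, h6, h9] at a3; norm_num at a3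
                · omega
        rw [ha, hb, one_mul]
      rw [sum_congr rfl h7, sum_const, card_product, Nat.card_Ico, Nat.card_Ico, nsmul_eq_mul,
        mul_one]
      have h8 : u + ℓ - u = ℓ := by omega
      have h9 : u + 7 * ℓ - (u + 6 * ℓ) = ℓ := by omega
      rw [h8, h9]
      push_cast
      ring
    rw [h6]
    apply sum_le_sum_of_subset_of_nonneg
    · intro p hp
      rw [mem_product, mem_Ico, mem_Ico] at hp
      rw [mem_sdiff]
      have h8 : 8 * (m + 3) * ℓ = 8 * (m * ℓ) + 24 * ℓ := by ring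
      have h10 : 4 * (m + 1) * ℓ = 4 * (m * ℓ) + 4 * ℓ := by ring
      constructor
      · unfold V
        rw [mem_filter, mem_product, mem_Icc, mem_Icc]
        refine ⟨⟨⟨by omega, by omega⟩, by omega, by omega⟩, by omega, Nat.modEq_one⟩
      · intro hpI
        obtain ⟨a, d, ha, hpd⟩ := hI' p hpI
        have hp1 : p.1 = a + (m + 1) * d := by rw [hpd]
        have hp2 : p.2 = a + (m + 2) * d := by rw [hpd]
        have hd : d = p.2 - p.1 := by
          have : (m + 2) * d = (m + 1) * d + d := by ring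
          omega
        have hd5 : 5 * ℓ + 1 ≤ d := by omega
        have h11 : (m + 1) * (5 * ℓ + 1) ≤ (m + 1) * d := Nat.mul_le_mul_left _ hd5
        have h12 : (m + 1) * (5 * ℓ + 1) = 5 * (m * ℓ) + 5 * ℓ + m + 1 := by ring
        have := Nat.zero_le (m * ℓ)
        omega
    · intro p hp _
      exact h2 p hp
  linarith

/-- The quadratic form is at most `-ℓ ^ 2`. -/
theorem Q_le (m ℓ n : ℕ) (hn : 8 * (m + 3) * ℓ ≤ n)
    (hdvd : ∀ s, 1 ≤ s → s ≤ m + 2 → s ∣ ℓ) :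
    ∑ t ∈ pairs (m + 3) n, ∑ j ∈ range (m + 3), ∑ i ∈ range j,
      bias (4 * (m + 1) * ℓ + 1) ℓ (t.1 + i * t.2) *
        bias (4 * (m + 1) * ℓ + 1) ℓ (t.1 + j * t.2) ≤ -(ℓ : ℝ) ^ 2 := by
  let T : ℕ → ℕ → ℝ := fun i j => ∑ t ∈ pairs (m + 3) n,
      bias (4 * (m + 1) * ℓ + 1) ℓ (t.1 + i * t.2) *
        bias (4 * (m + 1) * ℓ + 1) ℓ (t.1 + j * t.2)
  have hT : ∀ i j, i < j → j < m + 3 → T i j ≤ 0 := fun i j hij hj =>
    T_nonpos m ℓ n i j hn hij hj hdvd
  have hTl : T (m + 1) (m + 2) ≤ -(ℓ : ℝ) ^ 2 := T_last m ℓ n hn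
  have h1 : ∑ t ∈ pairs (m + 3) n, ∑ j ∈ range (m + 3), ∑ i ∈ range j,
      bias (4 * (m + 1) * ℓ + 1) ℓ (t.1 + i * t.2) *
        bias (4 * (m + 1) * ℓ + 1) ℓ (t.1 + j * t.2) =
        ∑ j ∈ range (m + 3), ∑ i ∈ range j, T i j := by
    rw [sum_comm]
    apply sum_congr rfl
    intro j _
    rw [sum_comm]
  have e1 : ∑ j ∈ range (m + 3), ∑ i ∈ range j, T i j =
      ∑ j ∈ range (m + 2), ∑ i ∈ range j, T i j + ∑ i ∈ range (m + 2), T i (m + 2) :=
    sum_range_succ _ _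
  have e2 : ∑ i ∈ range (m + 2), T i (m + 2) =
      ∑ i ∈ range (m + 1), T i (m + 2) + T (m + 1) (m + 2) := sum_range_succ _ _
  rw [h1, e1, e2]
  have h2 : ∑ j ∈ range (m + 2), ∑ i ∈ range j, T i j ≤ 0 := by
    apply sum_nonpos
    intro j hj
    apply sum_nonpos
    intro i hi
    rw [mem_range] at hi hj
    exact hT i j hi (by omega)
  have h3 : ∑ i ∈ range (m + 1), T i (m + 2) ≤ 0 := by
    apply sum_nonpos
    intro i hi
    rw [mem_range] at hi
    exact hT i (m + 2) (by omega) (by omega)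
  linarith

/-! ### Assembly -/

/-- For large `n` there is a colouring that beats the random rate by a constant. -/
theorem beat (m r : ℕ) (hr : 2 ≤ r) : ∃ (δ : ℝ) (n₀ : ℕ),
    δ < 1 / (2 * (((m + 3 : ℕ) : ℝ) - 1) * (r : ℝ) ^ (m + 3 - 1)) ∧
    ∀ n, n₀ ≤ n → ∃ ψ : ℕ → Fin r, (mc (m + 3) n ψ : ℝ) ≤ δ * n ^ 2 := by
  classical
  obtain ⟨C, hC0, hC⟩ := expand (m + 3)
  set k : ℝ := ((m + 3 : ℕ) : ℝ) with hk
  have hk3 : (3 : ℝ) ≤ k := by rw [hk]; push_cast; linarith [(Nat.cast_nonneg m : (0 : ℝ) ≤ m)]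
  set η : ℝ := 1 / (16 * k * (C + 1)) with hη
  have hη0 : 0 < η := by positivity
  have hη1 : η ≤ 1 / 2 := by
    rw [hη, div_le_div_iff₀ (by positivity) (by norm_num)]
    nlinarith [mul_nonneg (by linarith : (0 : ℝ) ≤ k) hC0]
  have hrr : (2 : ℝ) ≤ r := by exact_mod_cast hr
  have hrk : (0 : ℝ) < (r : ℝ) ^ (m + 3) := by positivity
  have hηC : C * η ^ 2 / (2 * (k - 1)) ≤ 1 / (16 * k) ^ 2 := by
    have h1 : η ^ 2 = 1 / (16 * k) ^ 2 * (1 / (C + 1) ^ 2) := by
      rw [hη]; field_simp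
    rw [h1]
    have h2 : C * (1 / (C + 1) ^ 2) ≤ 1 := by
      rw [mul_one_div, div_le_one (by positivity)]
      nlinarith
    have h3 : (1 : ℝ) ≤ 2 * (k - 1) := by linarith
    have h4 : 0 < 1 / (16 * k) ^ 2 := by positivity
    rw [div_le_iff₀ (by linarith)]
    nlinarith [mul_le_mul_of_nonneg_left h2 h4.le]
  refine ⟨1 / (2 * (k - 1) * (r : ℝ) ^ (m + 3 - 1)) - η ^ 2 / ((r : ℝ) ^ (m + 3) * (16 * k) ^ 2),
    16 * (m + 3) * (m + 2).factorial, ?_, ?_⟩
  · have : 0 < η ^ 2 / ((r : ℝ) ^ (m + 3) * (16 * k) ^ 2) := by positivity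
    linarith
  · intro n hn
    set F := (m + 2).factorial with hF
    have hF0 : 0 < F := Nat.factorial_pos _
    set ℓ := F * (n / (8 * (m + 3) * F)) with hℓ
    have hℓ1 : 8 * (m + 3) * ℓ ≤ n := by
      have := Nat.mul_div_le n (8 * (m + 3) * F)
      calc 8 * (m + 3) * ℓ = 8 * (m + 3) * F * (n / (8 * (m + 3) * F)) := by rw [hℓ]; ring
        _ ≤ n := this
    have hdvd : ∀ s, 1 ≤ s → s ≤ m + 2 → s ∣ ℓ := fun s h1 h2 =>
      Dvd.dvd.mul_right (Nat.dvd_factorial h1 h2) _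
    have hℓ2 : (n : ℝ) / (16 * k) ≤ ℓ := by
      have h1 : n < 8 * (m + 3) * F * (n / (8 * (m + 3) * F)) + 8 * (m + 3) * F := by
        have := Nat.lt_mul_div_succ n (by positivity : 0 < 8 * (m + 3) * F)
        rw [mul_add, mul_one] at this
        exact this
      have h2 : n < 8 * (m + 3) * ℓ + 8 * (m + 3) * F := by
        calc n < _ := h1
          _ = 8 * (m + 3) * ℓ + 8 * (m + 3) * F := by rw [hℓ]; ring
      have h3 : n ≤ 16 * (m + 3) * ℓ := by
        have h4 : 16 * (m + 3) * ℓ = 2 * (8 * (m + 3) * ℓ) := by ring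
        have h5 : 16 * (m + 3) * F = 2 * (8 * (m + 3) * F) := by ring
        omega
      have h6 : (n : ℝ) ≤ 16 * k * ℓ := by
        rw [hk]; exact_mod_cast h3
      rw [div_le_iff₀ (by positivity)]
      linarith
    set g : ℕ → ℝ := bias (4 * (m + 1) * ℓ + 1) ℓ with hg
    have hgb : ∀ x, |g x| ≤ 2 := fun x => abs_bias _ _ _
    let c0 : Fin r := ⟨0, by omega⟩
    let c1 : Fin r := ⟨1, by omega⟩
    have hc01 : c1 ≠ c0 := by
      intro h
      have := congrArg Fin.val h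
      simp [c0, c1] at this
    -- a sum over colours
    have hsumc : ∀ A B D : ℝ, ∑ c : Fin r, (if c = c0 then A else if c = c1 then B else D) =
        A + B + (r - 2) * D := by
      intro A B D
      have h1 : ∀ c : Fin r, (if c = c0 then A else if c = c1 then B else D) =
          D + (if c = c0 then A - D else 0) + (if c = c1 then B - D else 0) := by
        intro c
        by_cases h0 : c = c0
        · rw [if_pos h0, if_pos h0, if_neg]
          · ring
          · rintro h1; exact hc01 (h1.symm.trans h0)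
        · rw [if_neg h0, if_neg h0]
          split_ifs <;> ring
      simp only [h1]
      rw [sum_add_distrib, sum_add_distrib, sum_ite_eq', sum_ite_eq', if_pos (mem_univ _),
        if_pos (mem_univ _), sum_const, card_univ, Fintype.card_fin, nsmul_eq_mul]
      ring
    let p : ℕ → Fin r → ℝ := fun x c =>
      if c = c0 then (1 + η * g x) / r else if c = c1 then (1 - η * g x) / r else 1 / r
    have hηg : ∀ x, |η * g x| ≤ 1 := by
      intro x
      rw [abs_mul, abs_of_pos hη0]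
      nlinarith [hgb x, abs_nonneg (g x)]
    have hp0 : ∀ x c, 0 ≤ p x c := by
      intro x c
      have := abs_le.1 (hηg x)
      simp only [p]
      split_ifs
      · apply div_nonneg <;> linarith
      · apply div_nonneg <;> linarith
      · positivity
    have hp1 : ∀ x, ∑ c, p x c = 1 := by
      intro x
      simp only [p]
      rw [hsumc]
      field_simp
      ring
    obtain ⟨ψ, hψ⟩ := exists_mc_le (k := m + 3) (n := n) (by omega) p hp0 hp1
    refine ⟨ψ, hψ.trans ?_⟩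
    -- evaluate the expectation
    have hE : ∀ t : ℕ × ℕ, ∑ c, ∏ j ∈ range (m + 3), p (t.1 + j * t.2) c =
        ((∏ j ∈ range (m + 3), (1 + η * g (t.1 + j * t.2))) +
          (∏ j ∈ range (m + 3), (1 - η * g (t.1 + j * t.2))) + (r - 2)) / (r : ℝ) ^ (m + 3) := by
      intro t
      have h1 : ∀ c : Fin r, ∏ j ∈ range (m + 3), p (t.1 + j * t.2) c =
          (if c = c0 then (∏ j ∈ range (m + 3), (1 + η * g (t.1 + j * t.2))) / (r : ℝ) ^ (m + 3)
          else if c = c1 then (∏ j ∈ range (m + 3), (1 - η * g (t.1 + j * t.2))) / (r : ℝ) ^ (m + 3)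
          else 1 / (r : ℝ) ^ (m + 3)) := by
        intro c
        simp only [p]
        by_cases h0 : c = c0
        · simp only [if_pos h0]
          rw [prod_div_distrib, prod_const, card_range]
        · simp only [if_neg h0]
          by_cases h1 : c = c1
          · simp only [if_pos h1]
            rw [prod_div_distrib, prod_const, card_range]
          · simp only [if_neg h1]
            rw [prod_const, card_range, div_pow, one_pow]
      simp only [h1]
      rw [hsumc]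
      field_simp
    have hbound : ∀ t ∈ pairs (m + 3) n, ∑ c, ∏ j ∈ range (m + 3), p (t.1 + j * t.2) c ≤
        ((r : ℝ) + C * η ^ 4 + 2 * η ^ 2 * ∑ j ∈ range (m + 3), ∑ i ∈ range j,
          g (t.1 + i * t.2) * g (t.1 + j * t.2)) / (r : ℝ) ^ (m + 3) := by
      intro t _
      rw [hE t]
      have h1 := (abs_le.1 (hC (fun j => g (t.1 + j * t.2)) η (fun j => hgb _) hη0.le
        (by linarith)).1).2
      rw [div_le_div_iff_of_pos_right hrk]
      linarith
    refine (sum_le_sum hbound).trans ?_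
    rw [← sum_div, sum_add_distrib, sum_const, nsmul_eq_mul, ← mul_sum]
    have hQ := Q_le m ℓ n hℓ1 hdvd
    have hN := card_pairs_le (m + 3) n (by omega)
    rw [← hk] at hN
    have hk1 : (0 : ℝ) < k - 1 := by linarith
    have hℓsq : ((n : ℝ) / (16 * k)) ^ 2 ≤ (ℓ : ℝ) ^ 2 := by
      apply pow_le_pow_left₀ (by positivity) hℓ2
    rw [div_le_iff₀ hrk]
    have hrpow : (r : ℝ) ^ (m + 3) = r * (r : ℝ) ^ (m + 3 - 1) := by
      have : m + 3 = (m + 3 - 1) + 1 := by omega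
      conv_lhs => rw [this, pow_succ]
      ring
    have hrhs : (1 / (2 * (k - 1) * (r : ℝ) ^ (m + 3 - 1)) -
        η ^ 2 / ((r : ℝ) ^ (m + 3) * (16 * k) ^ 2)) * n ^ 2 * (r : ℝ) ^ (m + 3) =
        r * ((n : ℝ) ^ 2 / (2 * (k - 1))) - η ^ 2 * ((n : ℝ) / (16 * k)) ^ 2 := by
      rw [hrpow]
      have h1 : (0 : ℝ) < (r : ℝ) ^ (m + 3 - 1) := by positivity
      have h2 : (r : ℝ) ≠ 0 := by positivity
      field_simp
    rw [hrhs]
    have h1 : ((pairs (m + 3) n).card : ℝ) * ((r : ℝ) + C * η ^ 4) ≤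
        (n : ℝ) ^ 2 / (2 * (k - 1)) * ((r : ℝ) + C * η ^ 4) :=
      mul_le_mul_of_nonneg_right hN (by positivity)
    have h2 : C * η ^ 4 * ((n : ℝ) ^ 2 / (2 * (k - 1))) ≤ η ^ 2 * ((n : ℝ) / (16 * k)) ^ 2 := by
      have h3 : C * η ^ 4 * ((n : ℝ) ^ 2 / (2 * (k - 1))) =
          (η ^ 2 * (n : ℝ) ^ 2) * (C * η ^ 2 / (2 * (k - 1))) := by ring
      have h4 : η ^ 2 * ((n : ℝ) / (16 * k)) ^ 2 = (η ^ 2 * (n : ℝ) ^ 2) * (1 / (16 * k) ^ 2) := by
        rw [div_pow]; ring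
      rw [h3, h4]
      exact mul_le_mul_of_nonneg_left hηC (by positivity)
    have h5 : 2 * η ^ 2 * (∑ t ∈ pairs (m + 3) n, ∑ j ∈ range (m + 3), ∑ i ∈ range j,
          g (t.1 + i * t.2) * g (t.1 + j * t.2)) ≤ 2 * η ^ 2 * (-(ℓ : ℝ) ^ 2) :=
      mul_le_mul_of_nonneg_left hQ (by positivity)
    have h6 : 2 * η ^ 2 * (-(ℓ : ℝ) ^ 2) ≤ -(2 * (η ^ 2 * ((n : ℝ) / (16 * k)) ^ 2)) := by
      have := mul_le_mul_of_nonneg_left hℓsq (by positivity : 0 ≤ 2 * η ^ 2)
      linarith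
    nlinarith [h1, h2, h5, h6]

/-- **Theorem.** For all `k ≥ 3` and `r ≥ 2` there are a constant `δ` below the random rate
`1 / (2 (k - 1) r ^ (k - 1))` and `r`-colourings `χ n` of `{1, ..., n}` whose numbers of
monochromatic `k`-term arithmetic progressions are `δ n ^ 2 + O(n)`. -/
theorem result :
    ∀ k r : ℕ, 3 ≤ k → 2 ≤ r → ∃ δ : ℝ, δ < 1 / (2 * ((k : ℝ) - 1) * (r : ℝ) ^ (k - 1)) ∧
      ∃ (χ : ℕ → ℕ → Fin r) (C : ℝ), ∀ n : ℕ,
        |(monoCount k n (χ n) : ℝ) - δ * (n : ℝ) ^ 2| ≤ C * n := by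
  intro k r hk hr
  obtain ⟨m, rfl⟩ : ∃ m, k = m + 3 := ⟨k - 3, by omega⟩
  obtain ⟨δ, n₀, hδ, hbeat⟩ := beat m r hr
  refine ⟨δ, hδ, ?_⟩
  have hk3 : (3 : ℝ) ≤ ((m + 3 : ℕ) : ℝ) := by
    push_cast; linarith [(Nat.cast_nonneg m : (0 : ℝ) ≤ m)]
  have hrr : (1 : ℝ) ≤ (r : ℝ) ^ (m + 3 - 1) := one_le_pow₀ (by exact_mod_cast (by omega : 1 ≤ r))
  have hδ1 : δ ≤ 1 / (2 * (((m + 3 : ℕ) : ℝ) - 1)) := by
    refine hδ.le.trans ?_
    apply one_div_le_one_div_of_le (by linarith)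
    nlinarith
  have hex : ∀ n : ℕ, ∃ χ : ℕ → Fin r, |(mc (m + 3) n χ : ℝ) - δ * (n : ℝ) ^ 2| ≤
      (((m + 3 : ℕ) : ℝ) + (1 + |δ|) * n₀) * n := by
    intro n
    by_cases hn : n₀ ≤ n
    · obtain ⟨ψ, hψ⟩ := hbeat n hn
      obtain ⟨χ, hχ⟩ := interpolate (by omega : 2 ≤ m + 3) (by omega : 1 ≤ r) δ ψ hψ (by
        refine le_trans ?_ (le_card_pairs (m + 3) n (by omega))
        have : δ * (n : ℝ) ^ 2 ≤ 1 / (2 * (((m + 3 : ℕ) : ℝ) - 1)) * (n : ℝ) ^ 2 :=
          mul_le_mul_of_nonneg_right hδ1 (by positivity)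
        have h2 : 1 / (2 * (((m + 3 : ℕ) : ℝ) - 1)) * (n : ℝ) ^ 2 =
          (n : ℝ) ^ 2 / (2 * (((m + 3 : ℕ) : ℝ) - 1)) := by ring
        linarith)
      refine ⟨χ, hχ.trans ?_⟩
      have : 0 ≤ (1 + |δ|) * (n₀ : ℝ) * n := by positivity
      nlinarith
    · push Not at hn
      refine ⟨fun _ => ⟨0, by omega⟩, ?_⟩
      have h1 : (mc (m + 3) n (fun _ => (⟨0, by omega⟩ : Fin r)) : ℝ) ≤ (n : ℝ) ^ 2 := by
        have h2 : mc (m + 3) n (fun _ => (⟨0, by omega⟩ : Fin r)) ≤ (pairs (m + 3) n).card :=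
          card_filter_le _ _
        have h3 : (mc (m + 3) n (fun _ => (⟨0, by omega⟩ : Fin r)) : ℝ) ≤
            ((pairs (m + 3) n).card : ℝ) := by exact_mod_cast h2
        refine h3.trans ((card_pairs_le (m + 3) n (by omega)).trans ?_)
        rw [div_le_iff₀ (by linarith)]
        nlinarith [sq_nonneg (n : ℝ)]
      have h4 : (0 : ℝ) ≤ (mc (m + 3) n (fun _ => (⟨0, by omega⟩ : Fin r)) : ℝ) := Nat.cast_nonneg _
      have h5 : |(mc (m + 3) n (fun _ => (⟨0, by omega⟩ : Fin r)) : ℝ) - δ * (n : ℝ) ^ 2| ≤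
          (1 + |δ|) * (n : ℝ) ^ 2 := by
        refine (abs_sub _ _).trans ?_
        rw [abs_of_nonneg h4, abs_mul, abs_of_nonneg (by positivity : (0 : ℝ) ≤ (n : ℝ) ^ 2)]
        nlinarith
      refine h5.trans ?_
      have hn' : (n : ℝ) ≤ n₀ := by exact_mod_cast hn.le
      have h6 : (n : ℝ) ^ 2 ≤ n₀ * n := by nlinarith [(Nat.cast_nonneg n : (0 : ℝ) ≤ n)]
      have h7 : (0 : ℝ) ≤ 1 + |δ| := by positivity
      have h8 := mul_le_mul_of_nonneg_left h6 h7
      have h9 : (0 : ℝ) ≤ ((m + 3 : ℕ) : ℝ) * n := by positivity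
      nlinarith
  choose χ hχ using hex
  refine ⟨χ, ((m + 3 : ℕ) : ℝ) + (1 + |δ|) * n₀, fun n => ?_⟩
  rw [monoCount_eq (by omega)]
  exact hχ n

end Pool.Agent.Results.MP_6bff71_co.BeatRandom
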